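import Pool.Agent.Q17.RB.Stm
import Pool.Agent.Q277.TC.Rl
import Pool.Agent.Q17.TC.C7

/-!
# Galois conjugates of blocks (job GCB of project RB)
-/

set_option autoImplicit false
set_option linter.all false

open scoped Classical

noncomputable section

namespace Pool.Agent.Q261.RB

open Pool.Agent.H254R3.IN hiding NN
open Pool.Agent.Q17.AM
open Pool.Agent.Q17.RB

section

variable {G : Type} [Group G] [Fintype G]

/-- The inverse exponent. -/
theorem inv_exp (k : ℕ) (hk : Nat.Coprime k (Nat.card G)) :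
    ∃ k' : ℕ, Nat.Coprime k' (Nat.card G) ∧ (∀ g : G, (g ^ k) ^ k' = g) ∧
      ∀ g : G, (g ^ k') ^ k = g := by
  have hn : Nat.card G ≠ 0 := Nat.card_pos.ne'
  have : NeZero (Nat.card G) := ⟨hn⟩
  let u : (ZMod (Nat.card G))ˣ := ZMod.unitOfCoprime k hk
  refine ⟨((u⁻¹ : (ZMod (Nat.card G))ˣ) : ZMod (Nat.card G)).val, ZMod.val_coe_unit_coprime _, ?_⟩
  have h1 : ∀ g : G, g ^ (k * ((u⁻¹ : (ZMod (Nat.card G))ˣ) : ZMod (Nat.card G)).val) = g := by
    intro g
    have h2 : k * ((u⁻¹ : (ZMod (Nat.card G))ˣ) : ZMod (Nat.card G)).val ≡ 1 [MOD (Nat.card G)] := by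
      rw [← ZMod.natCast_eq_natCast_iff, Nat.cast_mul, ZMod.natCast_val, ZMod.cast_id, Nat.cast_one]
      have h3 := Units.mul_inv u
      rwa [ZMod.coe_unitOfCoprime] at h3
    have h4 : k * ((u⁻¹ : (ZMod (Nat.card G))ˣ) : ZMod (Nat.card G)).val ≡ 1 [MOD (orderOf g)] :=
      h2.of_dvd (orderOf_dvd_natCard g)
    have h5 := pow_eq_pow_iff_modEq.mpr h4
    rw [h5, pow_one]
  refine ⟨fun g => ?_, fun g => ?_⟩
  · rw [← pow_mul, h1]
  · rw [← pow_mul, mul_comm, h1]

/-- The conjugate of a character. -/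
theorem irr_pow (k : ℕ) (hk : Nat.Coprime k (Nat.card G)) (χ : G → ℂ) (hχ : IsIrr χ) :
    IsIrr (fun g => χ (g ^ k)) := by
  obtain ⟨σ, hσ⟩ := Pool.Agent.Q17.TC.exists_sigma (N := Nat.card G) Nat.card_pos hk
  have h1 : (fun g => χ (g ^ k)) = fun g => σ (χ g) := by
    funext g
    exact (Pool.Agent.Q17.TC.gal_char hσ hχ (pow_card_eq_one')).symm
  rw [h1]
  exact Pool.Agent.Q17.TC.irr_gal σ hχ

theorem isConj_pow {x y : G} (k : ℕ) (h : IsConj x y) : IsConj (x ^ k) (y ^ k) := by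
  obtain ⟨c, hc⟩ := isConj_iff.mp h
  refine isConj_iff.mpr ⟨c, ?_⟩
  rw [← hc, conj_pow]

/-- The central character of the conjugate. -/
theorem omega_pow (k k' : ℕ) (h1 : ∀ g : G, (g ^ k) ^ k' = g) (h2 : ∀ g : G, (g ^ k') ^ k = g)
    (χ : G → ℂ) (x : G) : omega (fun g => χ (g ^ k)) x = omega χ (x ^ k) := by
  have e : {y : G // IsConj x y} ≃ {y : G // IsConj (x ^ k) y} :=
    { toFun := fun y => ⟨y.1 ^ k, isConj_pow k y.2⟩
      invFun := fun y => ⟨y.1 ^ k', by
        have h := isConj_pow k' y.2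
        rwa [h1] at h⟩
      left_inv := fun y => Subtype.ext (h1 _)
      right_inv := fun y => Subtype.ext (h2 _) }
  unfold omega
  rw [Nat.card_congr e]
  simp only [one_pow]

theorem gc_eq (k : ℕ) (B : Set (G → ℂ)) : gc k B = (fun (θ : G → ℂ) (g : G) => θ (g ^ k)) '' B := by
  ext χ
  constructor
  · rintro ⟨θ, hθ, rfl⟩
    exact ⟨θ, hθ, rfl⟩
  · rintro ⟨θ, hθ, rfl⟩
    exact ⟨θ, hθ, rfl⟩

theorem coeff_pow (k k' : ℕ) (h1 : ∀ g : G, (g ^ k) ^ k' = g) (h2 : ∀ g : G, (g ^ k') ^ k = g)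
    (B : Set (G → ℂ)) (x : G) : blockCoeff (gc k B) x = blockCoeff B (x ^ k) := by
  unfold blockCoeff
  rw [gc_eq, finsum_mem_image]
  · simp only [one_pow, inv_pow]
  · intro θ _ θ' _ h
    funext g
    have h3 := congrFun h (g ^ k')
    simp only [h2] at h3
    exact h3

theorem block_pow (O : ValuationSubring ℂ) (k : ℕ) (hk : Nat.Coprime k (Nat.card G))
    (B : Set (G → ℂ)) (hB : IsBlock O B) : IsBlock O (gc k B) := by
  obtain ⟨k', hk', h1, h2⟩ := inv_exp k hk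
  obtain ⟨χ₀, hχ₀, rfl⟩ := hB
  refine ⟨fun g => χ₀ (g ^ k), irr_pow k hk χ₀ hχ₀, ?_⟩
  ext χ
  constructor
  · rintro ⟨θ, ⟨hθ, hθ'⟩, rfl⟩
    refine ⟨irr_pow k hk θ hθ, fun x => ?_⟩
    rw [omega_pow k k' h1 h2, omega_pow k k' h1 h2]
    exact hθ' _
  · rintro ⟨hχ, hχ'⟩
    refine ⟨fun g => χ (g ^ k'), ⟨irr_pow k' hk' χ hχ, fun x => ?_⟩, ?_⟩
    · rw [omega_pow k' k h2 h1]
      have h3 := hχ' (x ^ k')
      rw [omega_pow k k' h1 h2, h2] at h3
      exact h3
    · funext g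
      simp only [h1]

theorem defect_pow (p : ℕ) (O : ValuationSubring ℂ) (k : ℕ) (hk : Nat.Coprime k (Nat.card G))
    (B : Set (G → ℂ)) (D : Subgroup G) (hD : IsDefectGroup p O B D) :
    IsDefectGroup p O (gc k B) D := by
  obtain ⟨k', hk', h1, h2⟩ := inv_exp k hk
  obtain ⟨x, hP, hx1, hx2⟩ := hD
  have hc : Subgroup.centralizer ({x} : Set G) = Subgroup.centralizer ({x ^ k'} : Set G) := by
    ext g
    rw [Subgroup.mem_centralizer_singleton_iff, Subgroup.mem_centralizer_singleton_iff]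
    constructor
    · intro h
      exact Commute.pow_right h k'
    · intro h
      have h3 : Commute g ((x ^ k') ^ k) := Commute.pow_right h k
      rw [h2] at h3
      exact h3
  refine ⟨x ^ k', ?_, ?_, ?_⟩
  · rw [← hc]
    exact hP
  · rintro χ ⟨θ, hθ, rfl⟩
    rw [omega_pow k k' h1 h2, h2]
    exact hx1 θ hθ
  · rw [coeff_pow k k' h1 h2, h2]
    exact hx2

end

theorem t_GCB : Pool.Agent.Q17.RB.S_GCB := by
  intro G _ _ p _ O hO k hk
  refine ⟨fun χ hχ => irr_pow k hk χ hχ, fun B hB => ⟨block_pow O k hk B hB, ?_, ?_⟩⟩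
  · intro D hD
    refine ⟨defect_pow p O k hk B D hD, ?_⟩
    intro b hb
    obtain ⟨hb1, hb2, hb3⟩ := hb
    haveI : Fintype (NN D) := Fintype.ofFinite _
    have hkN : Nat.Coprime k (Nat.card (NN D)) :=
      Nat.Coprime.coprime_dvd_right (Subgroup.card_subgroup_dvd_card (NN D)) hk
    refine ⟨block_pow O k hkN b hb1, defect_pow p O k hkN b _ hb2, ?_⟩
    rintro χ ⟨χ', hχ', rfl⟩ θ ⟨θ', hθ', rfl⟩ x
    obtain ⟨k', hk', h1, h2⟩ := inv_exp (G := G) k hk
    rw [omega_pow k k' h1 h2]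
    have h3 := hb3 χ' hχ' θ' hθ' (x ^ k)
    have h1N : ∀ y : NN D, (y ^ k) ^ k' = y := fun y => Subtype.ext (by
      push_cast
      exact h1 _)
    have h2N : ∀ y : NN D, (y ^ k') ^ k = y := fun y => Subtype.ext (by
      push_cast
      exact h2 _)
    let e : {y : NN D // IsConj x (y : G)} ≃ {y : NN D // IsConj (x ^ k) (y : G)} :=
      { toFun := fun y => ⟨y.1 ^ k, by
          push_cast
          exact isConj_pow k y.2⟩
        invFun := fun y => ⟨y.1 ^ k', by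
          have h := isConj_pow k' y.2
          rw [h1] at h
          push_cast
          exact h⟩
        left_inv := fun y => Subtype.ext (h1N _)
        right_inv := fun y => Subtype.ext (h2N _) }
    have h4 : (∑ᶠ y : {y : NN D // IsConj x (y : G)},
        (fun g => θ' (g ^ k)) (y : NN D) / (fun g => θ' (g ^ k)) 1)
        = ∑ᶠ y : {y : NN D // IsConj (x ^ k) (y : G)}, θ' y / θ' 1 := by
      rw [← finsum_comp_equiv e]
      refine finsum_congr fun y => ?_
      simp only [one_pow]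
      rfl
    rw [h4]
    exact h3
  · intro s hs χ hχ g
    obtain ⟨χ₀, hχ₀, rfl⟩ := hB
    exact Pool.Agent.Q17.TC.gal_char hs hχ.1 (pow_card_eq_one')

end Pool.Agent.Q261.RB
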